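import Mathlib

/-!
# Marginal scenarios, polymatroids and entropic polymatroids
-/

set_option autoImplicit false

namespace Pool.Agent.Q179.KN

open MeasureTheory
open scoped ENNReal

/-- The Shannon entropy (base `2`, possibly infinite) of the discrete random variable `X`: the sum of
`- p log₂ p` over the values of `X`, where `p` is the probability of the value. -/
noncomputable def entropy {Ω α : Type} [MeasurableSpace Ω] (μ : Measure Ω) (X : Ω → α) : ℝ≥0∞ :=
  ∑' a : α, ENNReal.ofReal (Real.negMulLog (μ.real (X ⁻¹' {a})) / Real.log 2)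

/-- `f` is a polymatroid on `{1, …, n}`. -/
def IsPolymatroid {n : ℕ} (f : Finset (Fin n) → ℝ) : Prop :=
  f ∅ = 0 ∧ (∀ S, 0 ≤ f S) ∧ (∀ S T, S ⊆ T → f S ≤ f T) ∧
    ∀ S T, f (S ∩ T) + f (S ∪ T) ≤ f S + f T

/-- `f` is entropic: there are random variables `A_1, …, A_n` on a probability space, with countable
ranges and finite entropies, such that `f S` is the entropy of `A_S = (A_i)_{i ∈ S}` for all `S`. -/
def IsEntropic {n : ℕ} (f : Finset (Fin n) → ℝ) : Prop :=
  ∃ (Ω : Type) (_ : MeasurableSpace Ω) (μ : Measure Ω) (α : Fin n → Type) (A : ∀ i, Ω → α i),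
    IsProbabilityMeasure μ ∧ (∀ i, Countable (α i)) ∧
    (∀ i, ∀ a : α i, MeasurableSet (A i ⁻¹' {a})) ∧
    (∀ i, entropy μ (A i) ≠ ⊤) ∧
    ∀ S : Finset (Fin n), f S = (entropy μ (fun ω => fun i : S => A i ω)).toReal

/-- The marginal scenario `M` (a set of subsets of `{1, …, n}`) is Shannon-complete: every linear
inequality `∑_{S ∈ M} c_S h(S) ≥ 0` which holds for all entropic polymatroids holds for all
polymatroids. -/
def ShannonComplete {n : ℕ} (M : Set (Finset (Fin n))) : Prop :=
  ∀ c : Finset (Fin n) → ℝ, (∀ S, S ∉ M → c S = 0) →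
    (∀ f, IsEntropic f → 0 ≤ ∑ S, c S * f S) → ∀ f, IsPolymatroid f → 0 ≤ ∑ S, c S * f S

/-- The complete graph scenario `K_n`: the sets with at most two elements. -/
def completeGraph (n : ℕ) : Set (Finset (Fin n)) := {S | S.card ≤ 2}

end Pool.Agent.Q179.KN
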