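import Pool.Agent.Helper364.EQ.P_ZY

set_option autoImplicit false

namespace Pool.Agent.Q179.KN

open Finset Pool.EQ

theorem mono_Hm {Ω A B : Type} [Fintype Ω] [DecidableEq A] [DecidableEq B] (p : Ω → ℝ)
    (hp : ∀ w, 0 ≤ p w) (X : Ω → A) (Z : Ω → B) : Hm p Z ≤ Hm p (fun w => (X w, Z w)) := by
  have h := submod p hp X X Z
  have h2 : Hm p (fun w => (X w, X w, Z w)) = Hm p (fun w => (X w, Z w)) :=
    Hm_inj p _ _ (by intro w w'; simp only [Prod.mk.injEq]; tauto)
  linarith

/-- the Zhang-Yeung inequality without conditioning -/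
theorem zy {Ω β : Type} [Fintype Ω] [Fintype β] [DecidableEq β] (p : Ω → ℝ) (hp : ∀ w, 0 ≤ p w)
    (A B C D : Ω → β) :
    0 ≤ 3 * Hm p (fun w => (B w, C w)) + 3 * Hm p (fun w => (A w, C w))
      + 3 * Hm p (fun w => (A w, B w)) + Hm p (fun w => (B w, D w))
      + Hm p (fun w => (A w, D w)) - Hm p (fun w => (C w, D w))
      - Hm p C - 2 * Hm p B - 2 * Hm p A - Hm p (fun w => (A w, B w, D w))
      - 4 * Hm p (fun w => (A w, B w, C w)) := by
  classical
  let π : Ω → β × β × β × β × Unit := fun w => (A w, B w, C w, D w, ())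
  let q : β × β × β × β × Unit → ℝ := fun v => ∑ w ∈ univ.filter (fun w => π w = v), p w
  have hq : ∀ z, 0 ≤ q z := fun z => Finset.sum_nonneg fun w _ => hp w
  have h := ZY q hq
  have push : ∀ {E F : Type} [DecidableEq E] [DecidableEq F] (X : β × β × β × β × Unit → E)
      (Y : Ω → F), (∀ w w', X (π w) = X (π w') ↔ Y w = Y w') → Hm q X = Hm p Y := by
    intro E F _ _ X Y hXY
    rw [← Hm_push p q π (fun w => rfl) X]
    exact Hm_inj p _ _ hXY
  rw [push (fun z => (z.2.1, z.2.2.1, z.2.2.2.2)) (fun w => (B w, C w)) (by intro w w'; simp [π]),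
    push (fun z => (z.1, z.2.2.1, z.2.2.2.2)) (fun w => (A w, C w)) (by intro w w'; simp [π]),
    push (fun z => (z.1, z.2.1, z.2.2.2.2)) (fun w => (A w, B w)) (by intro w w'; simp [π]),
    push (fun z => (z.2.1, z.2.2.2.1, z.2.2.2.2)) (fun w => (B w, D w)) (by intro w w'; simp [π]),
    push (fun z => (z.1, z.2.2.2.1, z.2.2.2.2)) (fun w => (A w, D w)) (by intro w w'; simp [π]),
    push (fun z => (z.2.2.1, z.2.2.2.1, z.2.2.2.2)) (fun w => (C w, D w))
      (by intro w w'; simp [π]),
    push (fun z => (z.2.2.1, z.2.2.2.2)) C (by intro w w'; simp [π]),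
    push (fun z => (z.2.1, z.2.2.2.2)) B (by intro w w'; simp [π]),
    push (fun z => (z.1, z.2.2.2.2)) A (by intro w w'; simp [π]),
    push (fun z => (z.1, z.2.1, z.2.2.2.1, z.2.2.2.2)) (fun w => (A w, B w, D w))
      (by intro w w'; simp [π]),
    push (fun z => (z.1, z.2.1, z.2.2.1, z.2.2.2.2)) (fun w => (A w, B w, C w))
      (by intro w w'; simp [π])] at h
  exact h

/-- the inequality for the entropies of the pairs of five random variables, finite ranges -/
theorem five {Ω β : Type} [Fintype Ω] [Fintype β] [DecidableEq β] (p : Ω → ℝ)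
    (hp : ∀ w, 0 ≤ p w) (A B C D G : Ω → β) :
    0 ≤ 3 * Hm p (fun w => (B w, C w)) + 3 * Hm p (fun w => (A w, C w))
      - 2 * Hm p (fun w => (A w, B w)) + Hm p (fun w => (B w, D w))
      + Hm p (fun w => (A w, D w)) - Hm p (fun w => (C w, D w))
      - Hm p C - 2 * Hm p B - 2 * Hm p A - Hm p (fun w => (D w, G w))
      - 4 * Hm p (fun w => (C w, G w)) + 5 * Hm p (fun w => (A w, G w))
      + 5 * Hm p (fun w => (B w, G w)) - 5 * Hm p G := by
  have h0 := zy p hp A B C D
  have s1 : ∀ C : Ω → β, Hm p (fun w => (C w, G w)) + Hm p (fun w => (A w, B w)) ≤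
      Hm p (fun w => (A w, B w, C w)) + Hm p (fun w => (A w, B w, G w)) := by
    intro C
    have h1 := submod p hp C G (fun w => (A w, B w))
    have h2 := mono_Hm p hp (fun w => (A w, B w)) (fun w => (C w, G w))
    have h3 : Hm p (fun w => ((A w, B w), (C w, G w))) =
        Hm p (fun w => (C w, G w, (A w, B w))) :=
      Hm_inj p _ _ (by intro w w'; simp only [Prod.mk.injEq]; tauto)
    have h4 : Hm p (fun w => (C w, (A w, B w))) = Hm p (fun w => (A w, B w, C w)) :=
      Hm_inj p _ _ (by intro w w'; simp only [Prod.mk.injEq]; tauto)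
    have h5 : Hm p (fun w => (G w, (A w, B w))) = Hm p (fun w => (A w, B w, G w)) :=
      Hm_inj p _ _ (by intro w w'; simp only [Prod.mk.injEq]; tauto)
    linarith
  have s2 := s1 C
  have s3 := s1 D
  have s4 := submod p hp A B G
  linarith

end Pool.Agent.Q179.KN
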