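import Pool.Agent.Q179.KN.Main

set_option autoImplicit false

namespace Pool.Agent.Q179.KN

/-- the values `0, 2, 3, 4` of the polymatroid on four points which violates the inequality of Zhang
and Yeung, the fifth point being parallel to the pair of the first two -/
def V (S : Finset (Fin 5)) : ℕ :=
  let T : Finset (Fin 5) := (S ∩ {0, 1, 2, 3}) ∪ (if 4 ∈ S then {0, 1} else ∅)
  if T.card = 0 then 0 else if T.card = 1 then 2 else if T.card = 2 ∧ T ≠ {2, 3} then 3 else 4

theorem V_empty : V ∅ = 0 := by decide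

set_option maxRecDepth 100000 in
theorem V_mono : ∀ S T : Finset (Fin 5), S ⊆ T → V S ≤ V T := by decide

set_option maxRecDepth 100000 in
theorem V_sub : ∀ S T : Finset (Fin 5), V (S ∩ T) + V (S ∪ T) ≤ V S + V T := by decide

/-- the preimage -/
def pre {n : ℕ} (ι : Fin 5 → Fin n) (S : Finset (Fin n)) : Finset (Fin 5) :=
  Finset.univ.filter fun i => ι i ∈ S

/-- the polymatroid on `n` points -/
def Vn {n : ℕ} (ι : Fin 5 → Fin n) (S : Finset (Fin n)) : ℝ := (V (pre ι S) : ℝ)

theorem Vn_poly {n : ℕ} (ι : Fin 5 → Fin n) : IsPolymatroid (Vn ι) := by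
  refine ⟨?_, fun S => Nat.cast_nonneg _, ?_, ?_⟩
  · have h : pre ι ∅ = ∅ := by
      ext i
      simp [pre]
    simp [Vn, h, V_empty]
  · intro S T hST
    refine Nat.cast_le.2 (V_mono _ _ ?_)
    intro i hi
    simp only [pre, Finset.mem_filter, Finset.mem_univ, true_and] at hi ⊢
    exact hST hi
  · intro S T
    have h1 : pre ι (S ∩ T) = pre ι S ∩ pre ι T := by
      ext i
      simp [pre]
    have h2 : pre ι (S ∪ T) = pre ι S ∪ pre ι T := by
      ext i
      simp [pre]
    have h3 := V_sub (pre ι S) (pre ι T)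
    unfold Vn
    rw [h1, h2]
    exact_mod_cast h3

theorem pre_one {n : ℕ} (ι : Fin 5 → Fin n) (hι : Function.Injective ι) (i : Fin 5) :
    pre ι {ι i} = {i} := by
  ext j
  simp [pre, hι.eq_iff]

theorem pre_two {n : ℕ} (ι : Fin 5 → Fin n) (hι : Function.Injective ι) (i j : Fin 5) :
    pre ι {ι i, ι j} = {i, j} := by
  ext l
  simp [pre, hι.eq_iff]

/-- the sets of the inequality -/
def sets {n : ℕ} (ι : Fin 5 → Fin n) : Fin 14 → Finset (Fin n) :=
  ![{ι 1, ι 2}, {ι 0, ι 2}, {ι 0, ι 1}, {ι 1, ι 3}, {ι 0, ι 3}, {ι 2, ι 3}, {ι 2}, {ι 1}, {ι 0},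
    {ι 3, ι 4}, {ι 2, ι 4}, {ι 0, ι 4}, {ι 1, ι 4}, {ι 4}]

/-- the coefficients of the inequality -/
def wts : Fin 14 → ℝ := ![3, 3, -2, 1, 1, -1, -1, -2, -2, -1, -4, 5, 5, -5]

theorem sets_card {n : ℕ} (ι : Fin 5 → Fin n) (t : Fin 14) : (sets ι t).card ≤ 2 := by
  have h : ∀ a b : Fin n, ({a, b} : Finset (Fin n)).card ≤ 2 := fun a b => Finset.card_le_two
  have h' : ∀ a : Fin n, ({a} : Finset (Fin n)).card ≤ 2 := fun a => by simp
  fin_cases t <;> first | exact h _ _ | exact h' _

/-- the coefficient function -/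
noncomputable def coef {n : ℕ} (ι : Fin 5 → Fin n) (S : Finset (Fin n)) : ℝ :=
  ∑ t : Fin 14, if sets ι t = S then wts t else 0

theorem coef_sum {n : ℕ} (ι : Fin 5 → Fin n) (f : Finset (Fin n) → ℝ) :
    ∑ S, coef ι S * f S = ∑ t : Fin 14, wts t * f (sets ι t) := by
  unfold coef
  simp_rw [Finset.sum_mul]
  rw [Finset.sum_comm]
  refine Finset.sum_congr rfl fun t _ => ?_
  simp [ite_mul]

theorem sets_sub {n : ℕ} (ι : Fin 5 → Fin n) (t : Fin 14) :
    sets ι t ⊆ Finset.univ.image ι := by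
  have h : ∀ a b : Fin 5, ({ι a, ι b} : Finset (Fin n)) ⊆ Finset.univ.image ι := by
    intro a b x hx
    rcases Finset.mem_insert.1 hx with rfl | hx
    · exact Finset.mem_image_of_mem _ (Finset.mem_univ _)
    · rw [Finset.mem_singleton.1 hx]
      exact Finset.mem_image_of_mem _ (Finset.mem_univ _)
  have h' : ∀ a : Fin 5, ({ι a} : Finset (Fin n)) ⊆ Finset.univ.image ι := by
    intro a x hx
    rw [Finset.mem_singleton.1 hx]
    exact Finset.mem_image_of_mem _ (Finset.mem_univ _)
  fin_cases t <;> first | exact h _ _ | exact h' _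

theorem not_complete {n : ℕ} (M : Set (Finset (Fin n))) (ι : Fin 5 → Fin n)
    (hι : Function.Injective ι)
    (hM : ∀ S : Finset (Fin n), S ⊆ Finset.univ.image ι → S.card ≤ 2 → S ∈ M) :
    ¬ ShannonComplete M := by
  intro h
  have h1 := h (coef ι) ?_ ?_ (Vn ι) (Vn_poly ι)
  · rw [coef_sum] at h1
    simp only [Fin.sum_univ_succ, wts, sets, Vn] at h1
    simp [pre_one ι hι, pre_two ι hι] at h1
    have e1 : V {1, 2} = 3 := by decide
    have e2 : V {0, 2} = 3 := by decide
    have e3 : V {0, 1} = 3 := by decide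
    have e4 : V {1, 3} = 3 := by decide
    have e5 : V {0, 3} = 3 := by decide
    have e6 : V {2, 3} = 4 := by decide
    have e7 : V {2} = 2 := by decide
    have e8 : V {1} = 2 := by decide
    have e9 : V {0} = 2 := by decide
    have e10 : V {3, 4} = 4 := by decide
    have e11 : V {2, 4} = 4 := by decide
    have e12 : V {0, 4} = 3 := by decide
    have e13 : V {1, 4} = 3 := by decide
    have e14 : V {4} = 3 := by decide
    rw [e1, e2, e3, e4, e5, e6, e7, e8, e9, e10, e11, e12, e13, e14] at h1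
    norm_num at h1
  · intro S hS
    unfold coef
    refine Finset.sum_eq_zero fun t _ => if_neg fun h2 => hS ?_
    rw [← h2]
    exact hM _ (sets_sub ι t) (sets_card ι t)
  · intro f hf
    rw [coef_sum]
    have h2 := entropic_ineq ι f hf
    simp only [Fin.sum_univ_succ, wts, sets]
    simp
    linarith

/-- scenarios which contain all pairs of five indices -/
theorem not_complete_of_five {n : ℕ} (M : Set (Finset (Fin n))) (I : Finset (Fin n))
    (hI : 5 ≤ I.card) (hM : ∀ S : Finset (Fin n), S ⊆ I → S.card ≤ 2 → S ∈ M) :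
    ¬ ShannonComplete M := by
  let ι : Fin 5 → Fin n := fun i => I.orderEmbOfFin rfl (Fin.castLE hI i)
  have hι : Function.Injective ι := fun a b h =>
    Fin.castLE_injective hI ((I.orderEmbOfFin rfl).injective h)
  refine not_complete M ι hι fun S hS hc => hM S (fun x hx => ?_) hc
  obtain ⟨i, -, rfl⟩ := Finset.mem_image.1 (hS hx)
  exact Finset.orderEmbOfFin_mem _ _ _

end Pool.Agent.Q179.KN
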