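import Pool.Agent.Q179.KN.Defs
import Pool.Agent.Q179.KN.Fin

set_option autoImplicit false

namespace Pool.Agent.Q179.KN

open MeasureTheory Filter Topology Pool.EQ
open scoped ENNReal

variable {Ω : Type} [MeasurableSpace Ω] {μ : Measure Ω}

theorem entropy_inj {α β : Type} (X : Ω → α) (e : α → β) (he : Function.Injective e) :
    entropy μ (e ∘ X) = entropy μ X := by
  unfold entropy
  have h : Function.support (fun b : β =>
      ENNReal.ofReal (Real.negMulLog (μ.real ((e ∘ X) ⁻¹' {b})) / Real.log 2)) ⊆ Set.range e := by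
    intro b hb
    by_contra hcon
    apply hb
    have h1 : (e ∘ X) ⁻¹' {b} = ∅ := by
      ext ω
      simp only [Set.mem_preimage, Function.comp_apply, Set.mem_singleton_iff,
        Set.mem_empty_iff_false, iff_false]
      intro h
      exact hcon ⟨X ω, h⟩
    simp [h1]
  rw [← he.tsum_eq h]
  refine tsum_congr fun a => ?_
  have h1 : (e ∘ X) ⁻¹' {e a} = X ⁻¹' {a} := by
    ext ω
    simp [he.eq_iff]
  rw [h1]

theorem log2_pos : (0 : ℝ) < Real.log 2 := Real.log_pos (by norm_num)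

/-- one term of the entropy -/
theorem term_eq [IsProbabilityMeasure μ] (s : Set Ω) :
    ENNReal.ofReal (Real.negMulLog (μ.real s) / Real.log 2) =
      μ s * ENNReal.ofReal (-Real.log (μ.real s) / Real.log 2) := by
  have h1 : Real.negMulLog (μ.real s) / Real.log 2 =
      μ.real s * (-Real.log (μ.real s) / Real.log 2) := by
    unfold Real.negMulLog
    ring
  rw [h1, ENNReal.ofReal_mul measureReal_nonneg]
  congr 1
  exact ENNReal.ofReal_toReal (measure_ne_top μ s)

theorem entropy_coarse [IsProbabilityMeasure μ] {α β : Type} [Countable α] (X : Ω → α)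
    (hX : ∀ a, MeasurableSet (X ⁻¹' {a})) (g : α → β) : entropy μ (g ∘ X) ≤ entropy μ X := by
  unfold entropy
  rw [← (Equiv.sigmaFiberEquiv g).tsum_eq (fun a : α =>
    ENNReal.ofReal (Real.negMulLog (μ.real (X ⁻¹' {a})) / Real.log 2)), ENNReal.tsum_sigma']
  refine ENNReal.tsum_le_tsum fun b => ?_
  have h1 : (g ∘ X) ⁻¹' {b} = ⋃ a : {a // g a = b}, X ⁻¹' {a.1} := by
    ext ω
    simp only [Set.mem_preimage, Function.comp_apply, Set.mem_singleton_iff, Set.mem_iUnion]
    constructor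
    · intro h
      exact ⟨⟨X ω, h⟩, rfl⟩
    · rintro ⟨⟨a, ha⟩, h⟩
      rw [h]
      exact ha
  have h2 : μ ((g ∘ X) ⁻¹' {b}) = ∑' a : {a // g a = b}, μ (X ⁻¹' {a.1}) := by
    rw [h1]
    refine measure_iUnion ?_ fun a => hX a.1
    intro a a' haa'
    refine Set.disjoint_left.2 fun ω h h' => haa' ?_
    exact Subtype.ext (h.symm.trans h')
  rw [term_eq, h2, ← ENNReal.tsum_mul_right]
  refine ENNReal.tsum_le_tsum fun a => ?_
  show _ ≤ ENNReal.ofReal (Real.negMulLog (μ.real (X ⁻¹' {a.1})) / Real.log 2)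
  rw [term_eq]
  rcases eq_or_ne (μ (X ⁻¹' {a.1})) 0 with h0 | h0
  · simp [h0]
  · refine mul_le_mul' le_rfl (ENNReal.ofReal_le_ofReal ?_)
    have h3 : 0 < μ.real (X ⁻¹' {a.1}) := ENNReal.toReal_pos h0 (measure_ne_top _ _)
    have h4 : μ.real (X ⁻¹' {a.1}) ≤ μ.real ((g ∘ X) ⁻¹' {b}) := by
      refine measureReal_mono ?_ (measure_ne_top _ _)
      rw [h1]
      exact Set.subset_iUnion (fun a : {a // g a = b} => X ⁻¹' {a.1}) a
    have h5 := Real.log_le_log h3 h4
    exact div_le_div_of_nonneg_right (neg_le_neg h5) log2_pos.le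

theorem entropy_tendsto [IsProbabilityMeasure μ] {α : Type} [Countable α] {β : ℕ → Type}
    (X : Ω → α) (hX : ∀ a, MeasurableSet (X ⁻¹' {a})) (g : ∀ k, α → β k)
    (hg : ∀ a, ∀ᶠ k in atTop, ∀ b, g k b = g k a → b = a) :
    Tendsto (fun k => entropy μ (g k ∘ X)) atTop (𝓝 (entropy μ X)) := by
  classical
  refine tendsto_order.2 ⟨fun c hc => ?_, fun c hc =>
    Eventually.of_forall fun k => lt_of_le_of_lt (entropy_coarse X hX (g k)) hc⟩
  unfold entropy at hc
  rw [ENNReal.tsum_eq_iSup_sum, lt_iSup_iff] at hc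
  obtain ⟨F, hF⟩ := hc
  filter_upwards [(Filter.eventually_all_finset F).2 fun a _ => hg a] with k hk
  refine lt_of_lt_of_le hF ?_
  have hinj : Set.InjOn (g k) F := fun a ha b hb hab => hk b hb a hab
  calc ∑ a ∈ F, ENNReal.ofReal (Real.negMulLog (μ.real (X ⁻¹' {a})) / Real.log 2)
      = ∑ a ∈ F, ENNReal.ofReal (Real.negMulLog (μ.real ((g k ∘ X) ⁻¹' {g k a})) /
          Real.log 2) := by
        refine Finset.sum_congr rfl fun a ha => ?_
        have h1 : (g k ∘ X) ⁻¹' {g k a} = X ⁻¹' {a} := by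
          ext ω
          simp only [Set.mem_preimage, Function.comp_apply, Set.mem_singleton_iff]
          exact ⟨fun h => hk a ha _ h, fun h => by rw [h]⟩
        rw [h1]
    _ = ∑ b ∈ F.image (g k), ENNReal.ofReal (Real.negMulLog (μ.real ((g k ∘ X) ⁻¹' {b})) /
          Real.log 2) := by
        rw [Finset.sum_image hinj]
    _ ≤ entropy μ (g k ∘ X) := ENNReal.sum_le_tsum _

/-- entropies of functions of a variable with finitely many values -/
theorem bridge [IsProbabilityMeasure μ] {ζ β : Type} [Fintype ζ] [Fintype β]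
    [DecidableEq β] (Z : Ω → ζ) (hZ : ∀ z, MeasurableSet (Z ⁻¹' {z})) (g : ζ → β) :
    entropy μ (g ∘ Z) = ENNReal.ofReal (Hm (fun z => μ.real (Z ⁻¹' {z})) g / Real.log 2) ∧
      0 ≤ Hm (fun z => μ.real (Z ⁻¹' {z})) g := by
  classical
  have hP : ∀ b, μ.real ((g ∘ Z) ⁻¹' {b}) =
      ∑ z ∈ Finset.univ.filter (fun z => g z = b), μ.real (Z ⁻¹' {z}) := by
    intro b
    have h1 : (g ∘ Z) ⁻¹' {b} = ⋃ z ∈ Finset.univ.filter (fun z => g z = b), Z ⁻¹' {z} := by
      ext ω
      simp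
    rw [h1]
    refine measureReal_biUnion_finset ?_ (fun z _ => hZ z) (fun z _ => measure_ne_top _ _)
    intro z _ z' _ hzz'
    refine Set.disjoint_left.2 fun ω h h' => hzz' (h.symm.trans h')
  have hH : Hm (fun z => μ.real (Z ⁻¹' {z})) g =
      ∑ b, Real.negMulLog (μ.real ((g ∘ Z) ⁻¹' {b})) := by
    unfold Hm
    rw [← Finset.sum_fiberwise Finset.univ g, ← Finset.sum_neg_distrib]
    refine Finset.sum_congr rfl fun b _ => ?_
    have h2 : ∑ z ∈ Finset.univ.filter (fun z => g z = b), μ.real (Z ⁻¹' {z}) *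
        Real.log (∑ w' ∈ Finset.univ.filter (fun w' => g w' = g z), μ.real (Z ⁻¹' {w'})) =
        (∑ z ∈ Finset.univ.filter (fun z => g z = b), μ.real (Z ⁻¹' {z})) *
        Real.log (μ.real ((g ∘ Z) ⁻¹' {b})) := by
      rw [Finset.sum_mul]
      refine Finset.sum_congr rfl fun z hz => ?_
      rw [(Finset.mem_filter.1 hz).2, hP b]
    rw [h2, ← hP b]
    unfold Real.negMulLog
    ring
  have hnn : ∀ b, 0 ≤ Real.negMulLog (μ.real ((g ∘ Z) ⁻¹' {b})) := fun b =>
    Real.negMulLog_nonneg measureReal_nonneg measureReal_le_one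
  constructor
  · unfold entropy
    rw [tsum_fintype, hH, Finset.sum_div, ENNReal.ofReal_sum_of_nonneg]
    intro b _
    exact div_nonneg (hnn b) log2_pos.le
  · rw [hH]
    exact Finset.sum_nonneg fun b _ => hnn b

end Pool.Agent.Q179.KN
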