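import Pool.Agent.Q179.KN.Lim

set_option autoImplicit false

namespace Pool.Agent.Q179.KN

open MeasureTheory Filter Topology Pool.EQ
open scoped ENNReal

/-- truncation -/
def cut (k a : ℕ) : Fin (k + 1) := ⟨min a k, Nat.lt_succ_of_le (min_le_right a k)⟩

theorem cut_event (a : ℕ) : ∀ᶠ k in atTop, ∀ b, cut k b = cut k a → b = a := by
  filter_upwards [eventually_ge_atTop (a + 1)] with k hk b hb
  have h : min b k = min a k := congrArg Fin.val hb
  omega

section trunc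

variable {Ω : Type} [MeasurableSpace Ω] {μ : Measure Ω} [IsProbabilityMeasure μ]

/-- the truncated variables, jointly -/
def joint (B : Fin 5 → Ω → ℕ) (k : ℕ) (ω : Ω) : Fin 5 → Fin (k + 1) := fun i => cut k (B i ω)

theorem joint_meas (B : Fin 5 → Ω → ℕ) (hB : ∀ i, ∀ a, MeasurableSet (B i ⁻¹' {a})) (k : ℕ)
    (z : Fin 5 → Fin (k + 1)) : MeasurableSet (joint B k ⁻¹' {z}) := by
  have h1 : joint B k ⁻¹' {z} = ⋂ i, ⋃ a ∈ {a : ℕ | cut k a = z i}, B i ⁻¹' {a} := by
    ext ω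
    simp only [Set.mem_preimage, Set.mem_singleton_iff, Set.mem_iInter, Set.mem_iUnion,
      exists_prop]
    constructor
    · intro h i
      exact ⟨B i ω, congrFun h i, rfl⟩
    · intro h
      funext i
      obtain ⟨a, ha, h2⟩ := h i
      show cut k (B i ω) = z i
      rw [h2]
      exact ha
  rw [h1]
  exact MeasurableSet.iInter fun i => MeasurableSet.biUnion (Set.to_countable _) fun a _ => hB i a

/-- entropies of the truncated variables -/
noncomputable def h1 (B : Fin 5 → Ω → ℕ) (μ : Measure Ω) (k : ℕ) (i : Fin 5) : ℝ :=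
  Hm (fun z => μ.real (joint B k ⁻¹' {z})) (fun z => z i)

/-- entropies of pairs of truncated variables -/
noncomputable def h2 (B : Fin 5 → Ω → ℕ) (μ : Measure Ω) (k : ℕ) (i j : Fin 5) : ℝ :=
  Hm (fun z => μ.real (joint B k ⁻¹' {z})) (fun z => (z i, z j))

theorem tendsto_one (B : Fin 5 → Ω → ℕ) (hB : ∀ i, ∀ a, MeasurableSet (B i ⁻¹' {a})) (i : Fin 5) :
    Tendsto (fun k => ENNReal.ofReal (h1 B μ k i / Real.log 2)) atTop
      (𝓝 (entropy μ (B i))) := by
  have h := entropy_tendsto (μ := μ) (B i) (hB i) (fun k => cut k) cut_event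
  refine h.congr fun k => ?_
  exact (bridge (μ := μ) (joint B k) (joint_meas B hB k) (fun z => z i)).1

theorem tendsto_two (B : Fin 5 → Ω → ℕ) (hB : ∀ i, ∀ a, MeasurableSet (B i ⁻¹' {a}))
    (i j : Fin 5) :
    Tendsto (fun k => ENNReal.ofReal (h2 B μ k i j / Real.log 2)) atTop
      (𝓝 (entropy μ (fun ω => (B i ω, B j ω)))) := by
  have h := entropy_tendsto (μ := μ) (fun ω => (B i ω, B j ω)) (fun a => by
    have h1 : (fun ω => (B i ω, B j ω)) ⁻¹' {a} = B i ⁻¹' {a.1} ∩ B j ⁻¹' {a.2} := by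
      ext ω
      simp [Prod.ext_iff]
    rw [h1]
    exact (hB i _).inter (hB j _)) (fun k a => (cut k a.1, cut k a.2)) (by
    rintro ⟨a, b⟩
    filter_upwards [cut_event a, cut_event b] with k ha hb
    rintro ⟨c, d⟩ h
    have h' := Prod.ext_iff.1 h
    exact Prod.ext (ha _ h'.1) (hb _ h'.2))
  refine h.congr fun k => ?_
  exact (bridge (μ := μ) (joint B k) (joint_meas B hB k) (fun z => (z i, z j))).1

theorem h1_nonneg (B : Fin 5 → Ω → ℕ) (hB : ∀ i, ∀ a, MeasurableSet (B i ⁻¹' {a})) (k : ℕ)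
    (i : Fin 5) : 0 ≤ h1 B μ k i :=
  (bridge (μ := μ) (joint B k) (joint_meas B hB k) (fun z => z i)).2

theorem h2_nonneg (B : Fin 5 → Ω → ℕ) (hB : ∀ i, ∀ a, MeasurableSet (B i ⁻¹' {a})) (k : ℕ)
    (i j : Fin 5) : 0 ≤ h2 B μ k i j :=
  (bridge (μ := μ) (joint B k) (joint_meas B hB k) (fun z => (z i, z j))).2

theorem h2_le (B : Fin 5 → Ω → ℕ) (hB : ∀ i, ∀ a, MeasurableSet (B i ⁻¹' {a})) (k : ℕ)
    (i j : Fin 5) : h2 B μ k i j ≤ h1 B μ k i + h1 B μ k j := by
  have hp : ∀ z, 0 ≤ μ.real (joint B k ⁻¹' {z}) := fun z => measureReal_nonneg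
  have h := submod (fun z => μ.real (joint B k ⁻¹' {z})) hp (fun z => z i) (fun z => z j)
    (fun _ => ())
  have e1 : Hm (fun z => μ.real (joint B k ⁻¹' {z})) (fun z => (z i, z j, ())) =
      h2 B μ k i j := Hm_inj _ _ _ (by intro w w'; simp)
  have e2 : Hm (fun z => μ.real (joint B k ⁻¹' {z})) (fun z => (z i, ())) =
      h1 B μ k i := Hm_inj _ _ _ (by intro w w'; simp)
  have e3 : Hm (fun z => μ.real (joint B k ⁻¹' {z})) (fun z => (z j, ())) =
      h1 B μ k j := Hm_inj _ _ _ (by intro w w'; simp)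
  have e4 : 0 ≤ Hm (fun z => μ.real (joint B k ⁻¹' {z})) (fun _ => ()) :=
    (bridge (μ := μ) (joint B k) (joint_meas B hB k) (fun _ => ())).2
  linarith

theorem two_ne_top (B : Fin 5 → Ω → ℕ) (hB : ∀ i, ∀ a, MeasurableSet (B i ⁻¹' {a}))
    (hfin : ∀ i, entropy μ (B i) ≠ ⊤) (i j : Fin 5) :
    entropy μ (fun ω => (B i ω, B j ω)) ≠ ⊤ := by
  have h := le_of_tendsto_of_tendsto (tendsto_two (μ := μ) B hB i j)
    ((tendsto_one (μ := μ) B hB i).add (tendsto_one (μ := μ) B hB j))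
    (Eventually.of_forall fun k => ?_)
  · exact ne_top_of_le_ne_top (ENNReal.add_ne_top.2 ⟨hfin i, hfin j⟩) h
  · show ENNReal.ofReal _ ≤ ENNReal.ofReal _ + ENNReal.ofReal _
    rw [← ENNReal.ofReal_add (div_nonneg (h1_nonneg B hB k i) log2_pos.le)
      (div_nonneg (h1_nonneg B hB k j) log2_pos.le)]
    refine ENNReal.ofReal_le_ofReal ?_
    rw [← add_div]
    exact div_le_div_of_nonneg_right (h2_le B hB k i j) log2_pos.le

/-- the inequality for countable ranges -/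
theorem five_entropy (B : Fin 5 → Ω → ℕ) (hB : ∀ i, ∀ a, MeasurableSet (B i ⁻¹' {a}))
    (hfin : ∀ i, entropy μ (B i) ≠ ⊤) (s : Fin 5 → ℝ) (t : Fin 5 → Fin 5 → ℝ)
    (hs : ∀ i, s i = (entropy μ (B i)).toReal)
    (ht : ∀ i j, t i j = (entropy μ (fun ω => (B i ω, B j ω))).toReal) :
    0 ≤ 3 * t 1 2 + 3 * t 0 2 - 2 * t 0 1 + t 1 3 + t 0 3 - t 2 3 - s 2 - 2 * s 1 - 2 * s 0
      - t 3 4 - 4 * t 2 4 + 5 * t 0 4 + 5 * t 1 4 - 5 * s 4 := by
  have T1 : ∀ i, Tendsto (fun k => h1 B μ k i / Real.log 2) atTop (𝓝 (s i)) := by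
    intro i
    have h := (ENNReal.tendsto_toReal (hfin i)).comp (tendsto_one (μ := μ) B hB i)
    rw [← hs i] at h
    refine h.congr fun k => ?_
    exact ENNReal.toReal_ofReal (div_nonneg (h1_nonneg B hB k i) log2_pos.le)
  have T2 : ∀ i j, Tendsto (fun k => h2 B μ k i j / Real.log 2) atTop (𝓝 (t i j)) := by
    intro i j
    have h := (ENNReal.tendsto_toReal (two_ne_top B hB hfin i j)).comp
      (tendsto_two (μ := μ) B hB i j)
    rw [← ht i j] at h
    refine h.congr fun k => ?_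
    exact ENNReal.toReal_ofReal (div_nonneg (h2_nonneg B hB k i j) log2_pos.le)
  have T := ((((((((((((((T2 1 2).const_mul 3).add ((T2 0 2).const_mul 3)).sub
    ((T2 0 1).const_mul 2)).add (T2 1 3)).add (T2 0 3)).sub (T2 2 3)).sub (T1 2)).sub
    ((T1 1).const_mul 2)).sub ((T1 0).const_mul 2)).sub (T2 3 4)).sub
    ((T2 2 4).const_mul 4)).add ((T2 0 4).const_mul 5)).add ((T2 1 4).const_mul 5)).sub
    ((T1 4).const_mul 5)
  refine ge_of_tendsto T (Eventually.of_forall fun k => ?_)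
  have hp : ∀ z, 0 ≤ μ.real (joint B k ⁻¹' {z}) := fun z => measureReal_nonneg
  have h := five (fun z => μ.real (joint B k ⁻¹' {z})) hp (fun z => z 0) (fun z => z 1)
    (fun z => z 2) (fun z => z 3) (fun z => z 4)
  have h' : 0 ≤ 3 * h2 B μ k 1 2 + 3 * h2 B μ k 0 2 - 2 * h2 B μ k 0 1 + h2 B μ k 1 3
      + h2 B μ k 0 3 - h2 B μ k 2 3 - h1 B μ k 2 - 2 * h1 B μ k 1 - 2 * h1 B μ k 0
      - h2 B μ k 3 4 - 4 * h2 B μ k 2 4 + 5 * h2 B μ k 0 4 + 5 * h2 B μ k 1 4
      - 5 * h1 B μ k 4 := h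
  have h'' := div_nonneg h' log2_pos.le
  convert h'' using 1
  ring

end trunc

/-- the inequality for entropic polymatroids -/
theorem entropic_ineq {n : ℕ} (ι : Fin 5 → Fin n)
    (f : Finset (Fin n) → ℝ) (hf : IsEntropic f) :
    0 ≤ 3 * f {ι 1, ι 2} + 3 * f {ι 0, ι 2} - 2 * f {ι 0, ι 1} + f {ι 1, ι 3} + f {ι 0, ι 3}
      - f {ι 2, ι 3} - f {ι 2} - 2 * f {ι 1} - 2 * f {ι 0} - f {ι 3, ι 4} - 4 * f {ι 2, ι 4}
      + 5 * f {ι 0, ι 4} + 5 * f {ι 1, ι 4} - 5 * f {ι 4} := by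
  classical
  obtain ⟨Ω, _, μ, α, A, _, hc, hm, hfin, hS⟩ := hf
  have henc : ∀ i, ∃ e : α i → ℕ, Function.Injective e := fun i => by
    have := hc i
    exact Countable.exists_injective_nat (α i)
  choose e he using henc
  have hB0 : ∀ i, entropy μ (e i ∘ A i) = entropy μ (A i) := fun i => entropy_inj _ _ (he i)
  have hone : ∀ i, f {i} = (entropy μ (e i ∘ A i)).toReal := by
    intro i
    rw [hS]
    congr 1
    have hi : i ∈ ({i} : Finset (Fin n)) := Finset.mem_singleton_self i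
    let φ : (∀ j : ({i} : Finset (Fin n)), α j) → ℕ := fun g => e i (g ⟨i, hi⟩)
    have hφ : Function.Injective φ := by
      intro g g' h
      have h1 := he i h
      funext ⟨j, hj⟩
      obtain rfl := Finset.mem_singleton.1 hj
      exact h1
    exact (entropy_inj (μ := μ) (fun ω => fun j : ({i} : Finset (Fin n)) => A j ω) φ hφ).symm
  have htwo : ∀ i j, f {i, j} =
      (entropy μ (fun ω => ((e i ∘ A i) ω, (e j ∘ A j) ω))).toReal := by
    intro i j
    rw [hS]
    congr 1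
    have hi : i ∈ ({i, j} : Finset (Fin n)) := by simp
    have hj : j ∈ ({i, j} : Finset (Fin n)) := by simp
    let φ : (∀ l : ({i, j} : Finset (Fin n)), α l) → ℕ × ℕ := fun g =>
      (e i (g ⟨i, hi⟩), e j (g ⟨j, hj⟩))
    have hφ : Function.Injective φ := by
      intro g g' h
      have h1 := Prod.ext_iff.1 h
      have h2 := he i h1.1
      have h3 := he j h1.2
      funext ⟨l, hl⟩
      rcases Finset.mem_insert.1 hl with rfl | hl'
      · exact h2
      · obtain rfl := Finset.mem_singleton.1 hl'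
        exact h3
    exact (entropy_inj (μ := μ) (fun ω => fun l : ({i, j} : Finset (Fin n)) => A l ω) φ hφ).symm
  refine five_entropy (μ := μ) (fun i => e (ι i) ∘ A (ι i)) ?_ ?_ (fun i => f {ι i})
    (fun i j => f {ι i, ι j}) (fun i => hone (ι i)) (fun i j => htwo (ι i) (ι j))
  · intro i a
    by_cases ha : ∃ b, e (ι i) b = a
    · obtain ⟨b, rfl⟩ := ha
      have h1 : (e (ι i) ∘ A (ι i)) ⁻¹' {e (ι i) b} = A (ι i) ⁻¹' {b} := by
        ext ω
        simp [(he (ι i)).eq_iff]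
      rw [h1]
      exact hm _ b
    · have h1 : (e (ι i) ∘ A (ι i)) ⁻¹' {a} = ∅ := by
        ext ω
        simp only [Set.mem_preimage, Function.comp_apply, Set.mem_singleton_iff,
          Set.mem_empty_iff_false, iff_false]
        exact fun h => ha ⟨_, h⟩
      rw [h1]
      exact MeasurableSet.empty
  · intro i
    rw [hB0]
    exact hfin _

end Pool.Agent.Q179.KN
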